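import Mathlib
import Pool.Agent.H.MP_df8e9b_al.A

set_option autoImplicit false

namespace Pool.Agent.Results.MP_df8e9b_al.Yes

open Pool.Agent.H.MP_df8e9b_al Classical

theorem result (G A : Type) [Group G] [AddCommGroup A] [DistribMulAction G A] (_hG : (Fol G).NeBot)
    (H : Subgroup G) : hAlg G A ≤ hAlg H A ∧ ent G A ≤ ent H A :=
  ⟨iSup₂_le fun X _ => le_iSup₂_of_le (insert 0 X) (Finset.insert_nonempty _ _)
    ((Hm G X).trans (Hle H (Finset.mem_insert_self _ _))),
    iSup₂_mono fun _ ⟨B, h⟩ => Hle H (Finset.mem_coe.1 (h ▸ B.zero_mem))⟩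

end Pool.Agent.Results.MP_df8e9b_al.Yes
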